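import Mathlib
import Pool.Agent.Helper24.QR.Mix
import Pool.Agent.Helper94.HT.Defs

/-!
Module COVSUP of project HYB (MP_f992e4_an): covariance bound from a supremum bound for one gradient
and an `ℓ^1` bound for the other.

The proof uses the positive operator `T = ∑_S P(S) E[· | S ∪ H]` with
`P(S) = ∫_0^1 λ^|S| (1-λ)^(m-|S|) dλ`, `S ⊆ Hᶜ`, `m = |Hᶜ|`, which multiplies the coefficient at `U`
by `1 / (|U \ H| + 1)`.
-/

set_option linter.dupNamespace false

namespace Pool.Agent.Helper94.HT

open Finset Pool.Agent.Helper11.Cube Pool.Agent.Helper11.AA Pool.Agent.Helper24.QR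

namespace CovAux

variable {n : ℕ}

/-- coefficients of the derivative -/
lemma coef_deriv (f : Cube n → ℝ) (v : Fin n) (W : Finset (Fin n)) :
    coef (discreteDeriv v f) W = if v ∈ W then 0 else coef f (insert v W) := by
  split_ifs with hv
  · have h1 : coef (discreteDeriv v f) W = - coef (discreteDeriv v f) W := by
      unfold coef
      conv_lhs => rw [← ex_flipOn {v} (fun x => discreteDeriv v f x * chi W x)]
      have : (fun x : Cube n => discreteDeriv v f (flipOn {v} x) * chi W (flipOn {v} x))
          = fun x => (-1) * (discreteDeriv v f x * chi W x) := by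
        funext x
        rw [discreteDeriv_flip, chi_flip, Finset.inter_singleton_of_mem hv]
        simp
      rw [this, ex_const_mul]
      ring
    linarith
  · have h1 : coef f (insert v W) = ex (fun x => f x * (((x v : ℤ) : ℝ) * chi W x)) := by
      unfold coef
      congr 1
      funext x
      unfold chi
      rw [Finset.prod_insert hv]
    have h2 : coef f (insert v W)
        = ex (fun x => f (flipOn {v} x) * (-(((x v : ℤ) : ℝ)) * chi W x)) := by
      rw [h1, ← ex_flipOn {v} (fun x => f x * (((x v : ℤ) : ℝ) * chi W x))]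
      congr 1
      funext x
      rw [chi_flip, Finset.inter_singleton_of_notMem hv]
      simp [flipOn]
    have h3 : 2 * coef f (insert v W) = 2 * coef (discreteDeriv v f) W := by
      have : 2 * coef f (insert v W) = ex (fun x => f x * (((x v : ℤ) : ℝ) * chi W x))
          + ex (fun x => f (flipOn {v} x) * (-(((x v : ℤ) : ℝ)) * chi W x)) := by
        rw [← h1, ← h2]; ring
      rw [this, ← ex_add]
      unfold coef
      rw [← ex_const_mul]
      congr 1
      funext x
      have h4 := sub_flip f v x
      have h5 := unit_sq (x v)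
      have : f x * (((x v : ℤ) : ℝ) * chi W x) + f (flipOn {v} x) * (-(((x v : ℤ) : ℝ)) * chi W x)
          = ((x v : ℤ) : ℝ) * chi W x * (f x - f (flipOn {v} x)) := by ring
      rw [this, h4]
      linear_combination 2 * chi W x * discreteDeriv v f x * h5
    linarith

/-- characters of mixed points -/
lemma chi_mix' (K S : Finset (Fin n)) (z x : Cube n) :
    chi S (mix K z x) = chi (S ∩ K) z * chi (S \ K) x := by
  unfold chi
  rw [← Finset.prod_inter_mul_prod_sdiff S K]
  congr 1
  · exact Finset.prod_congr rfl fun i hi => by rw [mix_mem (Finset.mem_inter.mp hi).2]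
  · exact Finset.prod_congr rfl fun i hi => by rw [mix_notMem (Finset.mem_sdiff.mp hi).2]

/-- expectation of a character -/
lemma ex_chi (S : Finset (Fin n)) : ex (fun x : Cube n => chi S x) = if S = ∅ then 1 else 0 := by
  unfold ex
  rw [sum_chi]
  split_ifs
  · exact div_self (two_pow_pos n).ne'
  · simp

/-- coefficients of the conditional expectation -/
lemma coef_cond' (K : Finset (Fin n)) (f : Cube n → ℝ) (S : Finset (Fin n)) :
    coef (cond K f) S = if S ⊆ K then coef f S else 0 := by
  have h1 : coef (cond K f) S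
      = ex (fun x => ex (fun y => f (mix K x y) * chi S (mix K (mix K x y) (mix K y x)))) := by
    unfold coef Helper24.QR.cond
    refine ex_congr fun x => ?_
    rw [← ex_mul_const]
    refine ex_congr fun y => ?_
    have : mix K (mix K x y) (mix K y x) = x := by
      funext i; by_cases hi : i ∈ K <;> simp [mix, hi]
    rw [this]
  rw [h1, exchange (stop_const K) (fun x y => f x * chi S (mix K x y))]
  have h2 : ∀ x, ex (fun y => f x * chi S (mix K x y))
      = f x * chi (S ∩ K) x * (if S \ K = ∅ then 1 else 0) := by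
    intro x
    rw [← ex_chi, ← ex_const_mul]
    refine ex_congr fun y => ?_
    rw [chi_mix']; ring
  rw [ex_congr h2, ex_mul_const]
  by_cases h : S ⊆ K
  · rw [if_pos h, if_pos (sdiff_eq_empty_iff_subset.mpr h), inter_eq_left.mpr h, mul_one]
    rfl
  · rw [if_neg h, if_neg (fun h' => h (sdiff_eq_empty_iff_subset.mp h')), mul_zero]

/-- the weights -/
noncomputable def wt (m k : ℕ) : ℝ := ∫ t in (0:ℝ)..1, t ^ k * (1 - t) ^ (m - k)

lemma wt_nonneg (m k : ℕ) : 0 ≤ wt m k := by
  unfold wt
  apply intervalIntegral.integral_nonneg zero_le_one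
  intro t ht
  exact mul_nonneg (pow_nonneg ht.1 _) (pow_nonneg (by linarith [ht.2]) _)

/-- the sum of the weights over the sets which contain `J` -/
lemma sum_wt (W J : Finset (Fin n)) (hJ : J ⊆ W) :
    ∑ S ∈ W.powerset, (if J ⊆ S then wt W.card S.card else 0) = 1 / ((J.card : ℝ) + 1) := by
  have h1 : ∑ S ∈ W.powerset, (if J ⊆ S then wt W.card S.card else 0)
      = ∑ R ∈ (W \ J).powerset, wt W.card (J.card + R.card) := by
    rw [← sum_filter]
    symm
    refine sum_bij' (fun R _ => J ∪ R) (fun S _ => S \ J) ?_ ?_ ?_ ?_ ?_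
    · intro R hR
      rw [mem_powerset] at hR
      rw [mem_filter, mem_powerset]
      exact ⟨union_subset hJ (hR.trans sdiff_subset), subset_union_left⟩
    · intro S hS
      rw [mem_filter, mem_powerset] at hS
      rw [mem_powerset]
      exact sdiff_subset_sdiff hS.1 (Subset.refl _)
    · intro R hR
      rw [mem_powerset] at hR
      ext i
      simp only [mem_sdiff, mem_union]
      constructor
      · rintro ⟨h | h, h'⟩
        · exact absurd h h'
        · exact h
      · intro h
        exact ⟨Or.inr h, (mem_sdiff.mp (hR h)).2⟩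
    · intro S hS
      rw [mem_filter, mem_powerset] at hS
      exact union_sdiff_of_subset hS.2
    · intro R hR
      rw [mem_powerset] at hR
      have hd : Disjoint J R := by
        rw [disjoint_left]
        intro i hi hi'
        exact (mem_sdiff.mp (hR hi')).2 hi
      rw [card_union_of_disjoint hd]
  rw [h1]
  have hc : (W \ J).card = W.card - J.card := card_sdiff_of_subset hJ
  have hJW : J.card ≤ W.card := card_le_card hJ
  unfold wt
  rw [← intervalIntegral.integral_finsetSum]
  · have h2 : ∀ t : ℝ, ∑ R ∈ (W \ J).powerset, t ^ (J.card + R.card) * (1 - t) ^ (W.card - (J.card + R.card))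
        = t ^ J.card := by
      intro t
      have h3 := Finset.sum_pow_mul_eq_add_pow t (1 - t) (W \ J)
      rw [add_sub_cancel, one_pow] at h3
      calc ∑ R ∈ (W \ J).powerset, t ^ (J.card + R.card) * (1 - t) ^ (W.card - (J.card + R.card))
          = ∑ R ∈ (W \ J).powerset, t ^ J.card * (t ^ R.card * (1 - t) ^ ((W \ J).card - R.card)) := by
            refine sum_congr rfl fun R hR => ?_
            rw [hc, pow_add, Nat.sub_add_eq]; ring
        _ = t ^ J.card := by rw [← mul_sum, h3, mul_one]
    rw [intervalIntegral.integral_congr (fun t _ => h2 t), integral_pow]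
    simp
  · intro R _
    exact (by fun_prop : Continuous fun t : ℝ => t ^ (J.card + R.card) * (1 - t) ^ (W.card - (J.card + R.card))).intervalIntegrable _ _

/-- the averaging operator -/
noncomputable def avg (H : Finset (Fin n)) (h : Cube n → ℝ) (x : Cube n) : ℝ :=
  ∑ S ∈ (univ \ H).powerset, wt (univ \ H).card S.card * cond (S ∪ H) h x

lemma cond_le {K : Finset (Fin n)} {g h : Cube n → ℝ} (hg : ∀ x, g x ≤ h x) (x : Cube n) :
    cond K g x ≤ cond K h x := ex_mono fun _ => hg _

lemma avg_mono (H : Finset (Fin n)) {g h : Cube n → ℝ} (hgh : ∀ x, g x ≤ h x) (x : Cube n) :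
    avg H g x ≤ avg H h x :=
  sum_le_sum fun _ _ => mul_le_mul_of_nonneg_left (cond_le hgh x) (wt_nonneg _ _)

lemma avg_nonneg (H : Finset (Fin n)) {h : Cube n → ℝ} (hh : ∀ x, 0 ≤ h x) (x : Cube n) :
    0 ≤ avg H h x :=
  sum_nonneg fun _ _ => mul_nonneg (wt_nonneg _ _) (ex_nonneg fun _ => hh _)

lemma abs_avg_le (H : Finset (Fin n)) (h : Cube n → ℝ) (x : Cube n) :
    |avg H h x| ≤ avg H (fun y => |h y|) x := by
  unfold avg
  refine (abs_sum_le_sum_abs _ _).trans (sum_le_sum fun S _ => ?_)
  rw [abs_mul, abs_of_nonneg (wt_nonneg _ _)]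
  exact mul_le_mul_of_nonneg_left (abs_ex_le _) (wt_nonneg _ _)

lemma avg_sum (H : Finset (Fin n)) {ι : Type*} (s : Finset ι) (g : ι → Cube n → ℝ) (x : Cube n) :
    avg H (fun y => ∑ i ∈ s, g i y) x = ∑ i ∈ s, avg H (g i) x := by
  unfold avg Helper24.QR.cond
  simp_rw [ex_sum, mul_sum]
  rw [sum_comm]

lemma avg_const (H : Finset (Fin n)) (c : ℝ) (x : Cube n) : avg H (fun _ => c) x = c := by
  unfold avg Helper24.QR.cond
  simp_rw [ex_const]
  rw [← sum_mul]
  have h := sum_wt (univ \ H) ∅ (empty_subset _)
  simp only [empty_subset, if_true, card_empty] at h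
  rw [h]; simp

lemma coef_avg (H : Finset (Fin n)) (h : Cube n → ℝ) (U : Finset (Fin n)) :
    coef (avg H h) U = coef h U * (1 / (((U \ H).card : ℝ) + 1)) := by
  have h1 : coef (avg H h) U
      = ∑ S ∈ (univ \ H).powerset, wt (univ \ H).card S.card * coef (cond (S ∪ H) h) U := by
    unfold coef avg
    rw [← ex_congr (f := fun x => ∑ S ∈ (univ \ H).powerset,
      wt (univ \ H).card S.card * (cond (S ∪ H) h x * chi U x))]
    · rw [ex_sum]
      exact sum_congr rfl fun S _ => ex_const_mul _ _
    · intro x
      rw [sum_mul]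
      exact sum_congr rfl fun S _ => by ring
  rw [h1, ← sum_wt (univ \ H) (U \ H) (sdiff_subset_sdiff (subset_univ _) (Subset.refl _)), mul_sum]
  refine sum_congr rfl fun S _ => ?_
  rw [coef_cond']
  have hiff : U ⊆ S ∪ H ↔ U \ H ⊆ S := by
    constructor
    · intro h' i hi
      rw [mem_sdiff] at hi
      rcases mem_union.mp (h' hi.1) with h'' | h''
      · exact h''
      · exact absurd h'' hi.2
    · intro h' i hi
      by_cases hiH : i ∈ H
      · exact mem_union_right _ hiH
      · exact mem_union_left _ (h' (mem_sdiff.mpr ⟨hi, hiH⟩))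
  by_cases hU : U ⊆ S ∪ H
  · rw [if_pos hU, if_pos (hiff.mp hU)]; ring
  · rw [if_neg hU, if_neg (fun h' => hU (hiff.mpr h'))]; ring

/-- one coordinate -/
lemma ex_deriv_avg (a f : Cube n → ℝ) (H : Finset (Fin n)) {v : Fin n} (hv : v ∉ H) :
    ex (fun x => discreteDeriv v a x * avg H (discreteDeriv v f) x)
      = ∑ U : Finset (Fin n), if v ∈ U then coef a U * coef f U / ((U \ H).card : ℝ) else 0 := by
  rw [plancherel]
  simp_rw [coef_avg, coef_deriv]
  rw [← sum_filter]
  have h1 : ∑ W : Finset (Fin n), ((if v ∈ W then 0 else coef a (insert v W))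
      * ((if v ∈ W then 0 else coef f (insert v W)) * (1 / (((W \ H).card : ℝ) + 1))))
      = ∑ W ∈ univ.filter (fun W : Finset (Fin n) => v ∉ W),
        coef a (insert v W) * (coef f (insert v W) * (1 / (((W \ H).card : ℝ) + 1))) := by
    rw [sum_filter]
    refine sum_congr rfl fun W _ => ?_
    by_cases h : v ∈ W <;> simp [h]
  rw [h1]
  refine sum_bij' (fun W _ => insert v W) (fun U _ => U.erase v) ?_ ?_ ?_ ?_ ?_
  · intro W hW; simp
  · intro U hU; simp
  · intro W hW
    rw [mem_filter] at hW
    exact erase_insert hW.2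
  · intro U hU
    rw [mem_filter] at hU
    exact insert_erase hU.2
  · intro W hW
    rw [mem_filter] at hW
    have : insert v W \ H = insert v (W \ H) := insert_sdiff_of_notMem _ hv
    rw [this, card_insert_of_notMem (fun h => hW.2 (mem_sdiff.mp h).1)]
    push_cast
    ring

/-- the covariance formula -/
lemma cov_formula (a f : Cube n → ℝ) (H : Finset (Fin n)) :
    ex (fun x => (a x - cond H a x) * f x)
      = ∑ v ∈ univ \ H, ex (fun x => discreteDeriv v a x * avg H (discreteDeriv v f) x) := by
  have hsub : ∀ U, coef (fun x => a x - cond H a x) U = if U ⊆ H then 0 else coef a U := by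
    intro U
    have h1 : coef (fun x => a x - cond H a x) U = coef a U - coef (cond H a) U := by
      unfold coef
      rw [← ex_sub]
      exact ex_congr fun x => by ring
    rw [h1, coef_cond']
    split_ifs <;> ring
  rw [plancherel]
  rw [sum_congr rfl fun v hv => ex_deriv_avg a f H (mem_sdiff.mp hv).2, sum_comm]
  refine sum_congr rfl fun U _ => ?_
  rw [hsub, ← sum_filter, sum_const]
  have hf : (univ \ H).filter (fun v => v ∈ U) = U \ H := by
    ext i; simp [mem_sdiff, and_comm]
  rw [hf, nsmul_eq_mul]
  by_cases hU : U ⊆ H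
  · rw [if_pos hU, sdiff_eq_empty_iff_subset.mpr hU]; simp
  · rw [if_neg hU]
    have : ((U \ H).card : ℝ) ≠ 0 := by
      rw [Nat.cast_ne_zero, card_ne_zero]
      exact sdiff_nonempty.mpr hU
    field_simp

end CovAux

open CovAux in
/-- covariance bound from a supremum bound for one gradient and an `ℓ^1` bound for the other -/
theorem covsup {n : ℕ} (a f s : Cube n → ℝ) (H : Finset (Fin n)) (L : ℝ) (hs0 : ∀ x, 0 ≤ s x)
    (hs : ∀ x, ∀ v, v ∉ H → |discreteDeriv v a x| ≤ s x)
    (hL : ∀ x, ∑ v, |discreteDeriv v f x| ≤ L) :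
    |ex (fun x => (a x - cond H a x) * f x)| ≤ L * ex s := by
  rw [cov_formula]
  calc |∑ v ∈ univ \ H, ex (fun x => discreteDeriv v a x * avg H (discreteDeriv v f) x)|
      ≤ ∑ v ∈ univ \ H, ex (fun x => s x * avg H (fun y => |discreteDeriv v f y|) x) := by
        refine (abs_sum_le_sum_abs _ _).trans (sum_le_sum fun v hv => ?_)
        refine (abs_ex_le _).trans (ex_mono fun x => ?_)
        rw [abs_mul]
        exact mul_le_mul (hs x v (mem_sdiff.mp hv).2) (abs_avg_le H _ x) (abs_nonneg _) (hs0 x)
    _ = ex (fun x => s x * avg H (fun y => ∑ v ∈ univ \ H, |discreteDeriv v f y|) x) := by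
        rw [← ex_sum]
        refine ex_congr fun x => ?_
        rw [avg_sum, mul_sum]
    _ ≤ ex (fun x => s x * L) := by
        refine ex_mono fun x => mul_le_mul_of_nonneg_left ?_ (hs0 x)
        rw [← avg_const H L x]
        refine avg_mono H (fun y => ?_) x
        refine le_trans ?_ (hL y)
        exact sum_le_sum_of_subset_of_nonneg sdiff_subset fun v _ _ => abs_nonneg _
    _ = L * ex s := by rw [ex_mul_const, mul_comm]

end Pool.Agent.Helper94.HT
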